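import Pool.Agent.Helper72.MK.Goals
import Pool.Agent.Helper47.AQ.Affine

set_option autoImplicit false

open MeasureTheory Set Filter Topology
open Pool.Agent.Helper47.AQ Pool.Agent.Helper72.MK

namespace Pool.Agent.Helper8.MK

theorem ip_comb (x : Fin 3 → ℝ) (y : Fin 3 → ℝ) (n : Fin 3 → Fin 3 → ℝ) :
    ip x (∑ j, y j • n j) = ∑ j, y j * ip x (n j) := by
  simp only [ip, Fin.sum_univ_three, Pi.add_apply, Pi.smul_apply, smul_eq_mul]
  ring

theorem tr : TRStmt := by
  intro K n m hK h
  let B : (Fin 3 → ℝ) →ₗ[ℝ] (Fin 3 → ℝ) := Fintype.linearCombination ℝ n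
  have hB : ∀ y, B y = ∑ j, y j • n j := fun y => Fintype.linearCombination_apply ℝ n y
  have hinv : ∀ y : Fin 3 → ℝ, ∀ i, ip (m i) (∑ j, y j • n j) = y i := by
    intro y i
    rw [ip_comb]
    simp only [h, mul_ite, mul_one, mul_zero]
    rw [Finset.sum_ite_eq]
    simp
  have hinj : Function.Injective B := by
    intro x y hxy
    funext i
    rw [← hinv x i, ← hinv y i, ← hB, ← hB, hxy]
  let e : (Fin 3 → ℝ) ≃ₗ[ℝ] (Fin 3 → ℝ) := LinearEquiv.ofInjectiveEndo B hinj
  have he : ∀ y, e y = ∑ j, y j • n j := fun y => hB y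
  have hK' : {y : Fin 3 → ℝ | ∑ j, y j • n j ∈ K} = e.symm '' K := by
    ext y
    constructor
    · intro hy
      refine ⟨e y, ?_, e.symm_apply_apply y⟩
      rw [he]
      exact hy
    · rintro ⟨x, hx, rfl⟩
      show ∑ j, (e.symm x) j • n j ∈ K
      rw [← he, e.apply_symm_apply]
      exact hx
  refine ⟨?_, ?_, ?_⟩
  · rw [hK']
    exact hK.affine e.symm.toAffineEquiv
  · have key : ∀ (p x y : Fin 3 → ℝ),
        ∑ k, (∑ i, p i • m i) k * ((∑ j, x j • n j) k - (∑ j, y j • n j) k) =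
          ∑ i, p i * (x i - y i) := by
      intro p x y
      have h1 : ∀ z : Fin 3 → ℝ, ∑ k, (∑ i, p i • m i) k * z k = ∑ i, p i * ip (m i) z := by
        intro z
        simp only [ip, Fin.sum_univ_three, Pi.add_apply, Pi.smul_apply, smul_eq_mul]
        ring
      simp only [mul_sub, Finset.sum_sub_distrib, h1, hinv]
    ext p
    constructor
    · intro hp X hX Y hY
      have hx : e.symm X ∈ {y : Fin 3 → ℝ | ∑ j, y j • n j ∈ K} := by
        rw [hK']
        exact ⟨X, hX, rfl⟩
      have hy : e.symm Y ∈ {y : Fin 3 → ℝ | ∑ j, y j • n j ∈ K} := by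
        rw [hK']
        exact ⟨Y, hY, rfl⟩
      have h2 := hp _ hx _ hy
      rw [← key, ← he, ← he, e.apply_symm_apply, e.apply_symm_apply] at h2
      exact h2
    · intro hp x hx y hy
      have h2 := hp _ hx _ hy
      rw [key] at h2
      exact h2
  · rw [hK']
    exact F_linear e.symm K

end Pool.Agent.Helper8.MK
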